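import Pool.Agent.Helper22.LIL.Defs

/-! Block UP of the LIL project (MP_fb29e9_nt): the upper bound for almost all radii. -/

open MeasureTheory Filter Set
open scoped Real Topology

namespace Pool.Agent.Helper22.LIL

open Pool.Agent.Helper22.GC Pool.Agent.Helper53.OM

noncomputable section

/-! ### Elementary lemmas -/

lemma UP_one_lt_kap : 1 < kap := by
  unfold kap
  exact Real.one_lt_rpow (by norm_num) (by norm_num)

lemma UP_kap_lt_two : kap < 2 := by
  unfold kap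
  calc (2 : ℝ) ^ (1 / 3 : ℝ) < (2 : ℝ) ^ (1 : ℝ) :=
        Real.rpow_lt_rpow_of_exponent_lt (by norm_num) (by norm_num)
    _ = 2 := by norm_num

lemma UP_bq_nonneg (N q : ℕ) : 0 ≤ bq N q := by
  unfold bq
  exact Finset.sum_nonneg fun _ _ => rho_nonneg _

lemma UP_abs_SQ_le (Q : Finset ℕ) (N : ℕ) (x : ℝ) : |SQ Q N x| ≤ ∑ q ∈ Q, bq N q := by
  unfold SQ bq
  refine (Finset.abs_sum_le_sum_abs _ _).trans (Finset.sum_le_sum fun q _ => ?_)
  refine (Finset.abs_sum_le_sum_abs _ _).trans (Finset.sum_le_sum fun j _ => ?_)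
  rw [abs_mul, abs_of_nonneg (rho_nonneg _), abs_mul]
  have h1 : |1 / π| ≤ 1 := by
    rw [abs_of_nonneg (by positivity), div_le_one Real.pi_pos]
    linarith [Real.pi_gt_three]
  have h2 := Real.abs_cos_le_one (2 * π * (x * (j * √q)) - 3 * π / 4)
  calc rho (q * j ^ 2) * (|1 / π| * |Real.cos (2 * π * (x * (j * √q)) - 3 * π / 4)|)
      ≤ rho (q * j ^ 2) * (1 * 1) := by
        refine mul_le_mul_of_nonneg_left ?_ (rho_nonneg _)
        exact mul_le_mul h1 h2 (abs_nonneg _) zero_le_one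
    _ = rho (q * j ^ 2) := by ring

lemma UP_continuous_SQ (Q : Finset ℕ) (N : ℕ) : Continuous (SQ Q N) := by
  unfold SQ
  refine continuous_finsetSum _ fun q _ => continuous_finsetSum _ fun j _ => ?_
  fun_prop

/-- Markov's inequality for an even moment -/
lemma UP_markov {f : ℝ → ℝ} (hf : Continuous f) {a b s : ℝ} (hab : a ≤ b) (hs : 0 < s) (m : ℕ) :
    (volume.restrict (Icc a b)) {α | s ≤ |f α|} ≤
      ENNReal.ofReal ((∫ α in a..b, f α ^ (2 * m)) / s ^ (2 * m)) := by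
  set μ := volume.restrict (Icc a b) with hμ
  have hint : Integrable (fun α => f α ^ (2 * m)) μ :=
    (hf.pow _).continuousOn.integrableOn_compact isCompact_Icc
  have h1 := mul_meas_ge_le_integral_of_nonneg (μ := μ) (f := fun α => f α ^ (2 * m))
    (Eventually.of_forall fun α => Even.pow_nonneg ⟨m, by ring⟩ _) hint (s ^ (2 * m))
  have h2 : ∫ α, f α ^ (2 * m) ∂μ = ∫ α in a..b, f α ^ (2 * m) := by
    rw [intervalIntegral.integral_of_le hab, hμ, integral_Icc_eq_integral_Ioc]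
  rw [h2] at h1
  have hsub : {α | s ≤ |f α|} ⊆ {α | s ^ (2 * m) ≤ f α ^ (2 * m)} := by
    intro α hα
    simp only [Set.mem_ofPred_eq] at hα ⊢
    calc s ^ (2 * m) ≤ |f α| ^ (2 * m) := pow_le_pow_left₀ hs.le hα _
      _ = f α ^ (2 * m) := by rw [pow_mul, pow_mul, sq_abs]
  have hs2 : 0 < s ^ (2 * m) := by positivity
  have hfin : μ {α | s ^ (2 * m) ≤ f α ^ (2 * m)} ≠ ⊤ := measure_ne_top _ _
  calc μ {α | s ≤ |f α|} ≤ μ {α | s ^ (2 * m) ≤ f α ^ (2 * m)} := measure_mono hsub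
    _ = ENNReal.ofReal (μ.real {α | s ^ (2 * m) ≤ f α ^ (2 * m)}) := by
        rw [Measure.real, ENNReal.ofReal_toReal hfin]
    _ ≤ _ := by
        refine ENNReal.ofReal_le_ofReal ?_
        rw [le_div_iff₀ hs2, mul_comm]
        exact h1

lemma UP_Nk_le {k : ℕ} (hk : 1 ≤ k) : (Nk k : ℝ) ≤ (2 * (k : ℝ)) ^ 10 := by
  have h1 : 2 ^ (Nat.log 2 k) ≤ k := Nat.pow_log_le_self 2 (by omega)
  have h2 : Nk k ≤ (2 * k) ^ 10 := by
    unfold Nk
    have h3 : 2 ^ (Nat.log 2 k + 1) ≤ 2 * k := by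
      rw [pow_succ]; omega
    calc 2 ^ (10 * (Nat.log 2 k + 1)) = (2 ^ (Nat.log 2 k + 1)) ^ 10 := by
          rw [← pow_mul, mul_comm]
      _ ≤ (2 * k) ^ 10 := Nat.pow_le_pow_left h3 10
  exact_mod_cast h2

lemma UP_sqrt_Nk_le {k : ℕ} (hk : 1 ≤ k) : √(Nk k : ℝ) ≤ (2 * (k : ℝ)) ^ 5 := by
  rw [Real.sqrt_le_left (by positivity)]
  calc (Nk k : ℝ) ≤ (2 * (k : ℝ)) ^ 10 := UP_Nk_le hk
    _ = ((2 * (k : ℝ)) ^ 5) ^ 2 := by ring

/-- `V = log k / (loglog k)^(kap-1)` -/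
def UPV (k : ℕ) : ℝ := Real.log k * Real.log (Real.log k) ^ (-(kap - 1))

section asym

variable {k : ℕ} (h1 : 1 ≤ Real.log (Real.log k)) (h2 : 1 ≤ Real.log k)

include h1 h2

lemma UPV_pos : 0 < UPV k := by
  unfold UPV
  have : 0 < Real.log (Real.log k) := by linarith
  positivity

lemma UPV_le : UPV k ≤ Real.log k := by
  unfold UPV
  have h3 : Real.log (Real.log k) ^ (-(kap - 1)) ≤ 1 :=
    Real.rpow_le_one_of_one_le_of_nonpos h1 (by linarith [UP_one_lt_kap])
  calc Real.log k * Real.log (Real.log k) ^ (-(kap - 1)) ≤ Real.log k * 1 :=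
        mul_le_mul_of_nonneg_left h3 (by linarith)
    _ = _ := mul_one _

lemma UP_gV_le : gV (UPV k) ≤ 3 * Real.log (Real.log k) ^ (kap - 1) := by
  unfold gV
  have hV := UPV_pos h1 h2
  have hVle := UPV_le h1 h2
  have h3 : Real.log (1 + UPV k) ≤ 1 + Real.log (Real.log k) := by
    calc Real.log (1 + UPV k) ≤ Real.log (2 * Real.log k) :=
          Real.log_le_log (by linarith) (by linarith)
      _ = Real.log 2 + Real.log (Real.log k) := Real.log_mul (by norm_num) (by linarith)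
      _ ≤ _ := by linarith [Real.log_two_lt_d9]
  have h4 : 0 ≤ 1 + Real.log (1 + UPV k) := by
    have : 0 ≤ Real.log (1 + UPV k) := Real.log_nonneg (by linarith)
    linarith
  calc (1 + Real.log (1 + UPV k)) ^ (kap - 1) ≤ (3 * Real.log (Real.log k)) ^ (kap - 1) :=
        Real.rpow_le_rpow h4 (by linarith) (by linarith [UP_one_lt_kap])
    _ = 3 ^ (kap - 1) * Real.log (Real.log k) ^ (kap - 1) := by
        rw [Real.mul_rpow (by norm_num) (by linarith)]
    _ ≤ 3 * Real.log (Real.log k) ^ (kap - 1) := by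
        refine mul_le_mul_of_nonneg_right ?_ (by have : 0 < Real.log (Real.log k) := by linarith
                                                 positivity)
        calc (3 : ℝ) ^ (kap - 1) ≤ 3 ^ (1 : ℝ) :=
              Real.rpow_le_rpow_of_exponent_le (by norm_num) (by linarith [UP_kap_lt_two])
          _ = 3 := by norm_num

lemma UP_rpow_V (s : ℝ) : UPV k ^ s =
    Real.log k ^ s * Real.log (Real.log k) ^ (-(kap - 1) * s) := by
  unfold UPV
  have h3 : (0 : ℝ) ≤ Real.log (Real.log k) := by linarith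
  rw [Real.mul_rpow (by linarith) (by positivity), ← Real.rpow_mul h3]

/-- (1) -/
lemma UP_V_Phi : UPV k ^ (1 / 4 : ℝ) * gV (UPV k) ≤ 3 * Phi k := by
  have h3 : (0 : ℝ) < Real.log (Real.log k) := by linarith
  have h4 : (0 : ℝ) < Real.log k := by linarith
  calc UPV k ^ (1 / 4 : ℝ) * gV (UPV k)
      ≤ UPV k ^ (1 / 4 : ℝ) * (3 * Real.log (Real.log k) ^ (kap - 1)) :=
        mul_le_mul_of_nonneg_left (UP_gV_le h1 h2)
          (Real.rpow_nonneg (UPV_pos h1 h2).le _)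
    _ = 3 * (Real.log k ^ (1 / 4 : ℝ) * (Real.log (Real.log k) ^ (-(kap - 1) * (1 / 4)) *
          Real.log (Real.log k) ^ (kap - 1))) := by
        rw [UP_rpow_V h1 h2]; ring
    _ = 3 * Phi k := by
        rw [← Real.rpow_add h3]
        unfold Phi
        congr 3
        ring

/-- (2) -/
lemma UP_V_log : UPV k * gV (UPV k) ≤ 3 * Real.log k := by
  have h3 : (0 : ℝ) < Real.log (Real.log k) := by linarith
  calc UPV k * gV (UPV k)
      ≤ UPV k * (3 * Real.log (Real.log k) ^ (kap - 1)) :=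
        mul_le_mul_of_nonneg_left (UP_gV_le h1 h2) (UPV_pos h1 h2).le
    _ = 3 * (Real.log k * (Real.log (Real.log k) ^ (-(kap - 1)) *
          Real.log (Real.log k) ^ (kap - 1))) := by
        unfold UPV; ring
    _ = 3 * Real.log k := by
        rw [← Real.rpow_add h3]
        simp

/-- (3) -/
lemma UP_V_mul_Phi : UPV k ^ (3 / 4 : ℝ) * Phi k = Real.log k := by
  have h3 : (0 : ℝ) < Real.log (Real.log k) := by linarith
  have h4 : (0 : ℝ) < Real.log k := by linarith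
  rw [UP_rpow_V h1 h2]
  unfold Phi
  calc Real.log k ^ (3 / 4 : ℝ) * Real.log (Real.log k) ^ (-(kap - 1) * (3 / 4)) *
        (Real.log k ^ (1 / 4 : ℝ) * Real.log (Real.log k) ^ ((3 / 4 : ℝ) * (kap - 1)))
      = (Real.log k ^ (3 / 4 : ℝ) * Real.log k ^ (1 / 4 : ℝ)) *
        (Real.log (Real.log k) ^ (-(kap - 1) * (3 / 4)) *
          Real.log (Real.log k) ^ ((3 / 4 : ℝ) * (kap - 1))) := by ring
    _ = Real.log k := by
        rw [← Real.rpow_add h3, ← Real.rpow_add h4]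
        have e1 : (3 / 4 : ℝ) + 1 / 4 = 1 := by norm_num
        have e2 : -(kap - 1) * (3 / 4) + (3 / 4 : ℝ) * (kap - 1) = 0 := by ring
        rw [e1, e2]
        simp

lemma UP_one_le_Phi : 1 ≤ Phi k := by
  unfold Phi
  have h3 : 1 ≤ Real.log k ^ (1 / 4 : ℝ) := Real.one_le_rpow h2 (by norm_num)
  have h4 : 1 ≤ Real.log (Real.log k) ^ ((3 / 4 : ℝ) * (kap - 1)) :=
    Real.one_le_rpow h1 (by nlinarith [UP_one_lt_kap])
  nlinarith

end asym

/-- the exponents -/
lemma UP_exp_bound (c₁ c₂ : ℝ) {δ : ℝ} (hδ : 0 < δ) : ∀ᶠ y : ℝ in atTop,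
    y * (c₁ + 10 * y) + Real.exp (Real.log 2 * y) * (14 * y) + 2 * y + c₂ ≤ δ * Real.exp y := by
  have hl2 : Real.log 2 < 0.7 := lt_trans Real.log_two_lt_d9 (by norm_num)
  set ε : ℝ := δ / (|c₁| + 10 + 14 + 2 + |c₂| + 1) with hε
  have hden : 0 < |c₁| + 10 + 14 + 2 + |c₂| + 1 := by positivity
  have hε0 : 0 < ε := div_pos hδ hden
  have a1 := (isLittleO_pow_exp_pos_mul_atTop (k := 1) (b := 0.3) (by norm_num)).bound hε0
  have a2 := (isLittleO_pow_exp_pos_mul_atTop (k := 2) (b := 1) (by norm_num)).bound hε0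
  have a3 := (isLittleO_pow_exp_pos_mul_atTop (k := 1) (b := 1) (by norm_num)).bound hε0
  have a4 := (isLittleO_pow_exp_pos_mul_atTop (k := 0) (b := 1) (by norm_num)).bound hε0
  filter_upwards [a1, a2, a3, a4, eventually_ge_atTop 0] with y b1 b2 b3 b4 hy
  simp only [pow_one, pow_zero, one_mul, Real.norm_eq_abs, abs_one, Real.abs_exp] at b1 b2 b3 b4
  rw [abs_of_nonneg hy] at b1 b3
  rw [abs_of_nonneg (by positivity)] at b2
  have c1 : Real.exp (Real.log 2 * y) * (14 * y) ≤ 14 * ε * Real.exp y := by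
    calc Real.exp (Real.log 2 * y) * (14 * y) ≤ Real.exp (0.7 * y) * (14 * (ε * Real.exp (0.3 * y))) := by
          refine mul_le_mul (Real.exp_le_exp.2 (mul_le_mul_of_nonneg_right hl2.le hy)) ?_
            (by positivity) (Real.exp_pos _).le
          linarith
      _ = 14 * ε * (Real.exp (0.7 * y) * Real.exp (0.3 * y)) := by ring
      _ = 14 * ε * Real.exp y := by
          rw [← Real.exp_add]
          congr 2
          ring
  have c2 : c₁ * y ≤ |c₁| * (ε * Real.exp y) :=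
    (mul_le_mul_of_nonneg_right (le_abs_self c₁) hy).trans
      (mul_le_mul_of_nonneg_left b3 (abs_nonneg _))
  have c3 : c₂ ≤ |c₂| * (ε * Real.exp y) :=
    calc c₂ ≤ |c₂| * 1 := by rw [mul_one]; exact le_abs_self _
      _ ≤ _ := mul_le_mul_of_nonneg_left b4 (abs_nonneg _)
  have c4 : 0 ≤ ε * Real.exp y := by positivity
  have c5 : ε * (|c₁| + 10 + 14 + 2 + |c₂| + 1) = δ := by
    rw [hε]; field_simp
  calc y * (c₁ + 10 * y) + Real.exp (Real.log 2 * y) * (14 * y) + 2 * y + c₂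
      = c₁ * y + 10 * y ^ 2 + Real.exp (Real.log 2 * y) * (14 * y) + 2 * y + c₂ := by ring
    _ ≤ |c₁| * (ε * Real.exp y) + 10 * (ε * Real.exp y) + 14 * ε * Real.exp y +
          2 * (ε * Real.exp y) + |c₂| * (ε * Real.exp y) := by linarith
    _ ≤ (ε * (|c₁| + 10 + 14 + 2 + |c₂| + 1)) * Real.exp y := by nlinarith
    _ = δ * Real.exp y := by rw [c5]

/-- the second term of the moment bound is small -/
lemma UP_second {C₃ : ℝ} (hC₃ : 1 ≤ C₃) {β l₀ : ℝ} (hβ : 1 < β) (hl₀ : 0 < l₀) :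
    ∀ᶠ k : ℕ in atTop, ∀ (m : ℕ) (A lam : ℝ), (2 * m : ℝ) ≤ Real.log k → 0 ≤ A →
      A ≤ C₃ * (2 * (k : ℝ)) ^ 10 → β ^ k * l₀ ≤ lam →
      A ^ (2 * m) * (2 * m * √(Nk k : ℝ) + 1) ^ (2 ^ (2 * m)) / lam ≤ 1 / (k : ℝ) ^ 2 := by
  have hδ : 0 < Real.log β := Real.log_pos hβ
  have e1 := (Real.tendsto_log_atTop.comp tendsto_natCast_atTop_atTop).eventually
    (UP_exp_bound (Real.log C₃ + 10 * Real.log 2) (-Real.log l₀) hδ)
  have e2 : ∀ᶠ k : ℕ in atTop, (2 : ℝ) ≤ k := tendsto_natCast_atTop_atTop.eventually_ge_atTop 2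
  have e3 : ∀ᶠ k : ℕ in atTop, (1 : ℝ) ≤ Real.log k :=
    (Real.tendsto_log_atTop.comp tendsto_natCast_atTop_atTop).eventually_ge_atTop 1
  filter_upwards [e1, e2, e3] with k h1 hk2 hL m A lam hm hA0 hA hlam
  simp only [Function.comp] at h1
  set L := Real.log k with hLdef
  have hk0 : (0 : ℝ) < k := by linarith
  have hk1 : 1 ≤ k := by exact_mod_cast (show (1 : ℝ) ≤ k by linarith)
  have hm0 : (0 : ℝ) ≤ 2 * m := by positivity
  have hlog2 : Real.log 2 ≤ 1 := by linarith [Real.log_two_lt_d9]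
  have hlog20 : 0 ≤ Real.log 2 := Real.log_nonneg (by norm_num)
  have hl2L : Real.log 2 ≤ L := Real.log_le_log (by norm_num) hk2
  -- the first factor
  have hA1 : A ^ (2 * m) ≤ Real.exp (L * (Real.log C₃ + 10 * Real.log 2 + 10 * L)) := by
    have hb : Real.log (C₃ * (2 * (k : ℝ)) ^ 10) = Real.log C₃ + 10 * Real.log 2 + 10 * L := by
      rw [Real.log_mul (by linarith) (by positivity), Real.log_pow, Real.log_mul (by norm_num)
        (by linarith)]
      push_cast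
      ring
    have hb0 : 0 ≤ Real.log C₃ + 10 * Real.log 2 + 10 * L := by
      have := Real.log_nonneg hC₃
      linarith
    calc A ^ (2 * m) ≤ (C₃ * (2 * (k : ℝ)) ^ 10) ^ (2 * m) := pow_le_pow_left₀ hA0 hA _
      _ = Real.exp ((2 * m : ℕ) * Real.log (C₃ * (2 * (k : ℝ)) ^ 10)) := by
          rw [← Real.log_pow, Real.exp_log (by positivity)]
      _ ≤ Real.exp (L * (Real.log C₃ + 10 * Real.log 2 + 10 * L)) := by
          refine Real.exp_le_exp.2 ?_
          rw [hb]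
          refine mul_le_mul_of_nonneg_right ?_ hb0
          push_cast
          exact hm
  -- the second factor
  have hk2' : (1 : ℝ) ≤ 2 * (k : ℝ) := by linarith
  have hy : 2 * m * √(Nk k : ℝ) + 1 ≤ (2 * (k : ℝ)) ^ 7 := by
    have hs := UP_sqrt_Nk_le hk1
    have hLk : L ≤ 2 * (k : ℝ) := by
      have := Real.log_le_sub_one_of_pos hk0
      linarith
    have h6 : 2 * m * √(Nk k : ℝ) ≤ (2 * (k : ℝ)) ^ 6 := by
      calc 2 * m * √(Nk k : ℝ) ≤ (2 * (k : ℝ)) * (2 * (k : ℝ)) ^ 5 :=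
            mul_le_mul (hm.trans hLk) hs (Real.sqrt_nonneg _) (by positivity)
        _ = _ := by ring
    have h7 : (1 : ℝ) ≤ (2 * (k : ℝ)) ^ 6 := one_le_pow₀ hk2'
    calc 2 * m * √(Nk k : ℝ) + 1 ≤ 2 * (2 * (k : ℝ)) ^ 6 := by linarith
      _ ≤ (2 * (k : ℝ)) * (2 * (k : ℝ)) ^ 6 := by
          refine mul_le_mul_of_nonneg_right (by linarith) (by positivity)
      _ = _ := by ring
  have hD0 : 0 ≤ 2 * m * √(Nk k : ℝ) + 1 := by positivity
  have hD : (2 * m * √(Nk k : ℝ) + 1) ^ (2 ^ (2 * m)) ≤ Real.exp (Real.exp (Real.log 2 * L) * (14 * L)) := by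
    have hc : Real.log ((2 * (k : ℝ)) ^ 7) ≤ 14 * L := by
      rw [Real.log_pow, Real.log_mul (by norm_num) (by linarith)]
      push_cast
      linarith
    have hp : ((2 ^ (2 * m) : ℕ) : ℝ) ≤ Real.exp (Real.log 2 * L) := by
      have : ((2 ^ (2 * m) : ℕ) : ℝ) = Real.exp (Real.log 2 * (2 * m)) := by
        push_cast
        rw [← Real.rpow_natCast, Real.rpow_def_of_pos (by norm_num)]
        push_cast
        ring_nf
      rw [this]
      exact Real.exp_le_exp.2 (mul_le_mul_of_nonneg_left hm hlog20)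
    calc (2 * m * √(Nk k : ℝ) + 1) ^ (2 ^ (2 * m)) ≤ ((2 * (k : ℝ)) ^ 7) ^ (2 ^ (2 * m)) :=
          pow_le_pow_left₀ hD0 hy _
      _ = Real.exp ((2 ^ (2 * m) : ℕ) * Real.log ((2 * (k : ℝ)) ^ 7)) := by
          rw [← Real.log_pow, Real.exp_log (by positivity)]
      _ ≤ _ := by
          refine Real.exp_le_exp.2 ?_
          refine mul_le_mul hp hc ?_ (Real.exp_pos _).le
          exact Real.log_nonneg (one_le_pow₀ hk2')
  have hlam0 : 0 < β ^ k * l₀ := by positivity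
  have hlam1 : 0 < lam := lt_of_lt_of_le hlam0 hlam
  have hlame : Real.exp (Real.log β * k + Real.log l₀) = β ^ k * l₀ := by
    rw [Real.exp_add, Real.exp_log hl₀, mul_comm (Real.log β), Real.exp_nat_mul,
      Real.exp_log (by linarith)]
  have hkL : Real.exp L = k := Real.exp_log hk0
  rw [hkL] at h1
  have hk2e : 1 / (k : ℝ) ^ 2 = Real.exp (-(2 * L)) := by
    rw [Real.exp_neg, one_div, show (2 : ℝ) * L = ((2 : ℕ) : ℝ) * L by norm_num,
      Real.exp_nat_mul, hkL]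
  calc A ^ (2 * m) * (2 * m * √(Nk k : ℝ) + 1) ^ (2 ^ (2 * m)) / lam
      ≤ A ^ (2 * m) * (2 * m * √(Nk k : ℝ) + 1) ^ (2 ^ (2 * m)) / (β ^ k * l₀) := by
        refine div_le_div_of_nonneg_left ?_ hlam0 hlam
        exact mul_nonneg (pow_nonneg hA0 _) (pow_nonneg hD0 _)
    _ ≤ Real.exp (L * (Real.log C₃ + 10 * Real.log 2 + 10 * L)) *
          Real.exp (Real.exp (Real.log 2 * L) * (14 * L)) /
          Real.exp (Real.log β * k + Real.log l₀) := by
        rw [hlame]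
        refine div_le_div_of_nonneg_right ?_ hlam0.le
        exact mul_le_mul hA1 hD (pow_nonneg hD0 _) (Real.exp_pos _).le
    _ = Real.exp (L * (Real.log C₃ + 10 * Real.log 2 + 10 * L) +
          Real.exp (Real.log 2 * L) * (14 * L) - (Real.log β * k + Real.log l₀)) := by
        rw [← Real.exp_add, ← Real.exp_sub]
    _ ≤ Real.exp (-(2 * L)) := Real.exp_le_exp.2 (by linarith)
    _ = _ := hk2e.symm

/-- UP, from the statements of the other blocks -/
theorem upper_ae_of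
    (hMOM : ∀ {Q : Finset ℕ} {N m : ℕ}, Q ⊆ sqf N → 1 ≤ m → ∀ {a b lam μ : ℝ},
      a ≤ b → 0 < lam → 0 < μ →
      ∫ α in a..b, SQ Q N (α * lam) ^ (2 * m) ≤
        (b - a) * ((2 * m).factorial / μ ^ (2 * m) * Real.exp (μ ^ 2 * ∑ q ∈ Q, bq N q ^ 2))
        + (∑ q ∈ Q, bq N q) ^ (2 * m) * (2 * m * √N + 1) ^ (2 ^ (2 * m)) / lam)
    (hSP : ∀ (N : ℕ) (x : ℝ), TK N x = SQ (sqf N) N x)
    (hC1 : ∃ C : ℝ, 0 < C ∧ ∀ N q : ℕ, 0 < q → bq N q ≤ C * rho q)
    (hU1 : ∃ C : ℝ, 0 < C ∧ ∀ (V : ℝ) (Q : Finset ℕ), 0 < V →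
      (∀ q ∈ Q, 0 < q ∧ Squarefree q ∧ V ^ (-(3 / 4) : ℝ) ≤ rho q) →
      ∑ q ∈ Q, rho q ≤ C * V ^ (1 / 4 : ℝ) * gV V)
    (hU2 : ∃ C : ℝ, 0 < C ∧ ∀ (V : ℝ) (Q : Finset ℕ), 0 < V →
      (∀ q ∈ Q, 0 < q ∧ Squarefree q ∧ rho q < V ^ (-(3 / 4) : ℝ)) →
      ∑ q ∈ Q, rho q ^ 2 ≤ C * V ^ (-(1 / 2) : ℝ) * gV V) :
    ∃ C : ℝ, 0 < C ∧ ∀ (β : ℝ) (lam : ℕ → ℝ), 1 < β → Lac β lam →
    ∀ a b : ℝ, 0 < a → a < b →
    ∀ᵐ α ∂(volume.restrict (Icc a b)), ∀ᶠ k : ℕ in atTop,
      |TK (Nk k) (α * lam k)| ≤ C * Phi k := by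
  classical
  obtain ⟨C₁, hC₁, hbq⟩ := hC1
  obtain ⟨C₂, hC₂, hbig⟩ := hU1
  obtain ⟨C₃, hC₃, hsmall⟩ := hU2
  obtain ⟨C₄, hC₄, hgr⟩ := gr_le (ε := 1 / 2) (by norm_num)
  set C' : ℝ := 3 * C₁ ^ 2 * C₃ with hC'
  have hC'0 : 0 < C' := by positivity
  set t : ℝ := Real.exp (C' + 2) with ht
  have ht1 : 1 ≤ t := Real.one_le_exp (by linarith)
  refine ⟨3 * C₁ * C₂ + t, by positivity, ?_⟩
  intro β lam hβ hlac a b ha hab
  have hl0 := hlac.1 0
  have hlamk : ∀ k : ℕ, β ^ k * lam 0 ≤ lam k := by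
    intro k
    induction k with
    | zero => simp
    | succ k ih =>
      calc β ^ (k + 1) * lam 0 = β * (β ^ k * lam 0) := by ring
        _ ≤ β * lam k := mul_le_mul_of_nonneg_left ih (by linarith)
        _ ≤ lam (k + 1) := hlac.2 k
  set C₅ : ℝ := C₁ * C₄ + 1 with hC₅
  have hC₅1 : 1 ≤ C₅ := by
    have : 0 < C₁ * C₄ := mul_pos hC₁ hC₄
    linarith
  -- the parts of the Hardy sum
  set bigQ : ℕ → Finset ℕ := fun k =>
    (sqf (Nk k)).filter (fun q => UPV k ^ (-(3 / 4) : ℝ) ≤ rho q) with hbigQ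
  set smallQ : ℕ → Finset ℕ := fun k =>
    (sqf (Nk k)).filter (fun q => ¬ UPV k ^ (-(3 / 4) : ℝ) ≤ rho q) with hsmallQ
  have hsqf : ∀ N q, q ∈ sqf N → 0 < q ∧ Squarefree q := by
    intro N q hq
    simp only [sqf, Finset.mem_filter, Finset.mem_Icc] at hq
    exact ⟨by omega, hq.2⟩
  have hsplit : ∀ k x, TK (Nk k) x = SQ (bigQ k) (Nk k) x + SQ (smallQ k) (Nk k) x := by
    intro k x
    rw [hSP]
    unfold SQ
    exact (Finset.sum_filter_add_sum_filter_not _ _ _).symm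
  -- conditions for large `k`
  have e1 : ∀ᶠ k : ℕ in atTop, (1 : ℝ) ≤ Real.log (Real.log k) :=
    (Real.tendsto_log_atTop.comp (Real.tendsto_log_atTop.comp
      tendsto_natCast_atTop_atTop)).eventually_ge_atTop 1
  have e2 : ∀ᶠ k : ℕ in atTop, (2 : ℝ) ≤ Real.log k :=
    (Real.tendsto_log_atTop.comp tendsto_natCast_atTop_atTop).eventually_ge_atTop 2
  have e3 : ∀ᶠ k : ℕ in atTop, (2 : ℝ) ≤ k := tendsto_natCast_atTop_atTop.eventually_ge_atTop 2
  have e4 := UP_second hC₅1 hβ hl0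
  -- the measure of the exceptional sets
  set K : ℝ := (b - a) * t ^ 2 + 1 with hK
  have hmeas : ∀ᶠ k : ℕ in atTop, (volume.restrict (Icc a b))
      {α | t * Phi k ≤ |SQ (smallQ k) (Nk k) (α * lam k)|} ≤ ENNReal.ofReal (K * (1 / (k : ℝ) ^ 2)) := by
    filter_upwards [e1, e2, e3, e4] with k h1 h2' h3 h4
    have h2 : 1 ≤ Real.log k := by linarith
    have hk0 : (0 : ℝ) < k := by linarith
    have hPhi : 1 ≤ Phi k := UP_one_le_Phi h1 h2
    have hV := UPV_pos h1 h2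
    set m : ℕ := ⌊Real.log k / 2⌋₊ with hm
    have hm1 : 1 ≤ m := Nat.le_floor (by push_cast; linarith)
    have hmle : (2 * m : ℝ) ≤ Real.log k := by
      have := Nat.floor_le (show 0 ≤ Real.log k / 2 by positivity)
      linarith
    have hmge : Real.log k - 2 ≤ 2 * m := by
      have := Nat.lt_floor_add_one (Real.log k / 2)
      linarith
    refine (UP_markov (f := fun α => SQ (smallQ k) (Nk k) (α * lam k))
      ((UP_continuous_SQ _ _).comp (continuous_id.mul continuous_const)) hab.le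
      (s := t * Phi k) (by positivity) m).trans (ENNReal.ofReal_le_ofReal ?_)
    have hsub : smallQ k ⊆ sqf (Nk k) := Finset.filter_subset _ _
    set μ : ℝ := UPV k ^ (3 / 4 : ℝ) with hμ
    have hμ0 : 0 < μ := Real.rpow_pos_of_pos hV _
    have hmom := hMOM hsub hm1 hab.le (hlac.1 k) hμ0
    -- the exponential
    have hsum2 : μ ^ 2 * ∑ q ∈ smallQ k, bq (Nk k) q ^ 2 ≤ C' * Real.log k := by
      have s1 : ∑ q ∈ smallQ k, bq (Nk k) q ^ 2 ≤ C₁ ^ 2 * ∑ q ∈ smallQ k, rho q ^ 2 := by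
        rw [Finset.mul_sum]
        refine Finset.sum_le_sum fun q hq => ?_
        rw [← mul_pow]
        exact pow_le_pow_left₀ (UP_bq_nonneg _ _) (hbq _ _ (hsqf _ _ (hsub hq)).1) 2
      have s2 := hsmall (UPV k) (smallQ k) hV (by
        intro q hq
        have hq' := hsub hq
        refine ⟨(hsqf _ _ hq').1, (hsqf _ _ hq').2, ?_⟩
        simp only [hsmallQ, Finset.mem_filter, not_le] at hq
        exact hq.2)
      have s3 : μ ^ 2 * UPV k ^ (-(1 / 2) : ℝ) = UPV k := by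
        rw [hμ, ← Real.rpow_natCast, ← Real.rpow_mul hV.le, ← Real.rpow_add hV]
        norm_num
      calc μ ^ 2 * ∑ q ∈ smallQ k, bq (Nk k) q ^ 2
          ≤ μ ^ 2 * (C₁ ^ 2 * (C₃ * UPV k ^ (-(1 / 2) : ℝ) * gV (UPV k))) := by
            refine mul_le_mul_of_nonneg_left (s1.trans ?_) (by positivity)
            exact mul_le_mul_of_nonneg_left s2 (by positivity)
        _ = C₁ ^ 2 * C₃ * ((μ ^ 2 * UPV k ^ (-(1 / 2) : ℝ)) * gV (UPV k)) := by ring
        _ = C₁ ^ 2 * C₃ * (UPV k * gV (UPV k)) := by rw [s3]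
        _ ≤ C₁ ^ 2 * C₃ * (3 * Real.log k) :=
            mul_le_mul_of_nonneg_left (UP_V_log h1 h2) (by positivity)
        _ = C' * Real.log k := by rw [hC']; ring
    -- the factorial
    have hfac : ((2 * m).factorial : ℝ) / μ ^ (2 * m) ≤ Phi k ^ (2 * m) := by
      rw [div_le_iff₀ (by positivity), ← mul_pow, mul_comm (Phi k), hμ, UP_V_mul_Phi h1 h2]
      calc ((2 * m).factorial : ℝ) ≤ ((2 * m : ℕ) : ℝ) ^ (2 * m) := by
            exact_mod_cast Nat.factorial_le_pow (2 * m)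
        _ ≤ Real.log k ^ (2 * m) := by
            refine pow_le_pow_left₀ (by positivity) ?_ _
            push_cast
            exact hmle
    have hA : ∑ q ∈ smallQ k, bq (Nk k) q ≤ C₅ * (2 * (k : ℝ)) ^ 10 := by
      have hrho : ∀ q, 0 < q → rho q ≤ C₄ := by
        intro q hq
        unfold rho
        have hq1 : (1 : ℝ) ≤ q := by exact_mod_cast hq
        calc (gr q : ℝ) * (q : ℝ) ^ (-(3 / 4) : ℝ)
            ≤ C₄ * (q : ℝ) ^ (1 / 2 : ℝ) * (q : ℝ) ^ (-(3 / 4) : ℝ) :=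
              mul_le_mul_of_nonneg_right (hgr q hq) (by positivity)
          _ = C₄ * (q : ℝ) ^ ((1 / 2 : ℝ) + -(3 / 4)) := by
              rw [Real.rpow_add (by linarith), mul_assoc]
          _ ≤ C₄ * 1 := by
              refine mul_le_mul_of_nonneg_left ?_ hC₄.le
              exact Real.rpow_le_one_of_one_le_of_nonpos hq1 (by norm_num)
          _ = C₄ := mul_one _
      have hcard : ((smallQ k).card : ℝ) ≤ (Nk k : ℝ) := by
        have : (smallQ k).card ≤ (Finset.Icc 1 (Nk k)).card := by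
          refine Finset.card_le_card fun q hq => ?_
          have hq' := hsub hq
          simp only [sqf, Finset.mem_filter] at hq'
          exact hq'.1
        rw [Nat.card_Icc] at this
        exact_mod_cast this
      have hk1 : 1 ≤ k := by exact_mod_cast (show (1 : ℝ) ≤ k by linarith)
      calc ∑ q ∈ smallQ k, bq (Nk k) q ≤ ∑ q ∈ smallQ k, C₁ * C₄ := by
            refine Finset.sum_le_sum fun q hq => ?_
            have hq0 := (hsqf _ _ (hsub hq)).1
            exact (hbq _ _ hq0).trans (mul_le_mul_of_nonneg_left (hrho q hq0) hC₁.le)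
        _ = (smallQ k).card * (C₁ * C₄) := by rw [Finset.sum_const, nsmul_eq_mul]
        _ ≤ (2 * (k : ℝ)) ^ 10 * C₅ := by
            refine mul_le_mul (hcard.trans (UP_Nk_le hk1)) (by linarith) (by positivity)
              (by positivity)
        _ = _ := by ring
    have hA0 : 0 ≤ ∑ q ∈ smallQ k, bq (Nk k) q := Finset.sum_nonneg fun _ _ => UP_bq_nonneg _ _
    have h5 := h4 m _ (lam k) hmle hA0 hA (hlamk k)
    have htP : 0 < (t * Phi k) ^ (2 * m) := by positivity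
    have htP1 : 1 ≤ (t * Phi k) ^ (2 * m) := one_le_pow₀ (by nlinarith)
    have hb0 : 0 ≤ b - a := by linarith
    rw [div_le_iff₀ htP]
    -- the main term
    have hmain : (b - a) * (((2 * m).factorial : ℝ) / μ ^ (2 * m) *
        Real.exp (μ ^ 2 * ∑ q ∈ smallQ k, bq (Nk k) q ^ 2)) ≤
        (b - a) * t ^ 2 * (1 / (k : ℝ) ^ 2) * (t * Phi k) ^ (2 * m) := by
      have hL : Real.exp (Real.log k) = k := Real.exp_log hk0
      have hk2e : 1 / (k : ℝ) ^ 2 = Real.exp (-(2 * Real.log k)) := by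
        rw [Real.exp_neg, one_div, show (2 : ℝ) * Real.log k = ((2 : ℕ) : ℝ) * Real.log k by norm_num,
          Real.exp_nat_mul, hL]
      have ht2 : t ^ 2 * t ^ (2 * m) = Real.exp ((C' + 2) * (2 + 2 * m)) := by
        rw [ht, ← Real.exp_nat_mul, ← Real.exp_nat_mul, ← Real.exp_add]
        push_cast
        congr 1
        ring
      have hexp : Real.exp (μ ^ 2 * ∑ q ∈ smallQ k, bq (Nk k) q ^ 2) ≤
          t ^ 2 * (1 / (k : ℝ) ^ 2) * t ^ (2 * m) := by
        calc Real.exp (μ ^ 2 * ∑ q ∈ smallQ k, bq (Nk k) q ^ 2) ≤ Real.exp (C' * Real.log k) :=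
              Real.exp_le_exp.2 hsum2
          _ ≤ Real.exp ((C' + 2) * (2 + 2 * m) + -(2 * Real.log k)) := by
              refine Real.exp_le_exp.2 ?_
              have : (C' + 2) * Real.log k ≤ (C' + 2) * (2 + 2 * m) :=
                mul_le_mul_of_nonneg_left (by linarith) (by linarith)
              linarith
          _ = t ^ 2 * (1 / (k : ℝ) ^ 2) * t ^ (2 * m) := by
              rw [Real.exp_add, ← ht2, hk2e]; ring
      calc (b - a) * (((2 * m).factorial : ℝ) / μ ^ (2 * m) *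
            Real.exp (μ ^ 2 * ∑ q ∈ smallQ k, bq (Nk k) q ^ 2))
          ≤ (b - a) * (Phi k ^ (2 * m) * (t ^ 2 * (1 / (k : ℝ) ^ 2) * t ^ (2 * m))) := by
            refine mul_le_mul_of_nonneg_left ?_ hb0
            exact mul_le_mul hfac hexp (Real.exp_pos _).le (by positivity)
        _ = _ := by rw [mul_pow]; ring
    calc ∫ α in a..b, SQ (smallQ k) (Nk k) (α * lam k) ^ (2 * m)
        ≤ _ := hmom
      _ ≤ (b - a) * t ^ 2 * (1 / (k : ℝ) ^ 2) * (t * Phi k) ^ (2 * m) +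
          1 / (k : ℝ) ^ 2 * (t * Phi k) ^ (2 * m) := by
          refine add_le_add hmain (h5.trans ?_)
          have : (0 : ℝ) ≤ 1 / (k : ℝ) ^ 2 := by positivity
          nlinarith
      _ = K * (1 / (k : ℝ) ^ 2) * (t * Phi k) ^ (2 * m) := by rw [hK]; ring
  -- Borel-Cantelli
  obtain ⟨k₀, hk₀⟩ := eventually_atTop.1 hmeas
  have hK0 : 0 ≤ K := by
    have : 0 ≤ (b - a) * t ^ 2 := mul_nonneg (by linarith) (by positivity)
    linarith
  have hsum : ∑' k : ℕ, (volume.restrict (Icc a b))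
      {α | k₀ ≤ k ∧ t * Phi k ≤ |SQ (smallQ k) (Nk k) (α * lam k)|} ≠ ⊤ := by
    have hs : Summable fun k : ℕ => K * (1 / (k : ℝ) ^ 2) :=
      (Real.summable_one_div_nat_pow.2 (by norm_num)).mul_left _
    refine ne_top_of_le_ne_top (b := ∑' k : ℕ, ENNReal.ofReal (K * (1 / (k : ℝ) ^ 2))) ?_ ?_
    · rw [← ENNReal.ofReal_tsum_of_nonneg (fun k => by positivity) hs]
      exact ENNReal.ofReal_ne_top
    · refine ENNReal.tsum_le_tsum fun k => ?_
      by_cases hk : k₀ ≤ k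
      · refine (measure_mono ?_).trans (hk₀ k hk)
        intro α hα
        exact hα.2
      · simp [hk]
  have hbc := measure_setOfPred_frequently_eq_zero hsum
  have hae : ∀ᵐ α ∂(volume.restrict (Icc a b)),
      ¬ ∃ᶠ k : ℕ in atTop, k₀ ≤ k ∧ t * Phi k ≤ |SQ (smallQ k) (Nk k) (α * lam k)| := by
    rw [ae_iff]
    simp only [not_not]
    exact hbc
  filter_upwards [hae] with α hα
  rw [not_frequently] at hα
  filter_upwards [hα, e1, e2, eventually_ge_atTop k₀] with k hk h1 h2' hkk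
  have h2 : 1 ≤ Real.log k := by linarith
  have hsm : |SQ (smallQ k) (Nk k) (α * lam k)| ≤ t * Phi k := by
    by_contra hcon
    push Not at hcon
    exact hk ⟨hkk, hcon.le⟩
  have hbg : |SQ (bigQ k) (Nk k) (α * lam k)| ≤ 3 * C₁ * C₂ * Phi k := by
    have s2 := hbig (UPV k) (bigQ k) (UPV_pos h1 h2) (by
      intro q hq
      have hq' := hq
      simp only [hbigQ, Finset.mem_filter] at hq'
      exact ⟨(hsqf _ _ hq'.1).1, (hsqf _ _ hq'.1).2, hq'.2⟩)
    calc |SQ (bigQ k) (Nk k) (α * lam k)| ≤ ∑ q ∈ bigQ k, bq (Nk k) q := UP_abs_SQ_le _ _ _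
      _ ≤ ∑ q ∈ bigQ k, C₁ * rho q := by
          refine Finset.sum_le_sum fun q hq => hbq _ _ ?_
          simp only [hbigQ, Finset.mem_filter] at hq
          exact (hsqf _ _ hq.1).1
      _ = C₁ * ∑ q ∈ bigQ k, rho q := by rw [Finset.mul_sum]
      _ ≤ C₁ * (C₂ * UPV k ^ (1 / 4 : ℝ) * gV (UPV k)) := mul_le_mul_of_nonneg_left s2 hC₁.le
      _ = C₁ * C₂ * (UPV k ^ (1 / 4 : ℝ) * gV (UPV k)) := by ring
      _ ≤ C₁ * C₂ * (3 * Phi k) := mul_le_mul_of_nonneg_left (UP_V_Phi h1 h2) (by positivity)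
      _ = _ := by ring
  calc |TK (Nk k) (α * lam k)| = |SQ (bigQ k) (Nk k) (α * lam k) + SQ (smallQ k) (Nk k) (α * lam k)| := by
        rw [hsplit]
    _ ≤ |SQ (bigQ k) (Nk k) (α * lam k)| + |SQ (smallQ k) (Nk k) (α * lam k)| := abs_add_le _ _
    _ ≤ 3 * C₁ * C₂ * Phi k + t * Phi k := add_le_add hbg hsm
    _ = _ := by ring

end

end Pool.Agent.Helper22.LIL
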